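import Pool.Agent.K4H65.DM.Main

/-!
MP_8d161d_ag, Q1: the Green-Griffiths-Lang conjecture for the projective varieties which are
dominated, with degree at most `r`, by varieties with multiple fibres over projective lines.

`V` is a closed subset of `P^N × P^1 × ... × P^1` (`n` lines). The arcs in `V` which are not
contained in a given closed subset `R = 0` meet the fibres of `V` over finitely many points `c` of
the lines (`c ∈ A p` for the `p`-th line) with contact order `0`, `∞` or at least `m p c`
(`MultipleFibres`). The multiplicities are large with respect to `r` (`Wide`): for all `g, s ≥ 1`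
with `g s ≤ r` and all lines the sum of the numbers `1 - 1 / ⌈m p c / g⌉` is larger than `2 s`. This
holds for instance if `m p c > r` for all `c ∈ A p` and `∑ (1 - 1 / m p c) > 2 r` (`wide_example`).

`X` is any projective variety for which there are a variety `W`, a dominant rational map `W ⇢ X`
which is generically finite of degree at most `r`, and a rational map `W ⇢ V`, with image not
contained in `R = 0`, such that `W ⇢ P^1 × ... × P^1` is generically finite onto its image (neither
`W ⇢ V` nor `W ⇢ P^1 × ... × P^1` has to be dominant). Then

* the images of all nonconstant entire curves in `X` lie in one proper closed subset of `X`;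
* `X` is of general type;
* all closed subvarieties of `X` of positive dimension outside one proper closed subset of `X` are
  of general type.

For example `W = V` can be any surface `(C_1 × C_2) / G` isogenous to a product with
`C_1 / G = C_2 / G = P^1` and many branch points; it maps to no curve of positive genus. An entire
curve in `X` lifts only to an algebroid curve in `V`, and `X` is not assumed to be a quotient, or to
be related to the map to the lines.
-/

set_option autoImplicit false

open FF IntermediateField

namespace Pool.Agent.Results.MP_8d161d_ag.DominatedMultipleFibres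

open Pool.Agent.K4H65.DM
open Pool.Agent.W602.GT (GeneralType coords)
open Pool.Agent.TH466.QG (StronglyGeneral)
open Pool.Agent.Y221.BD (PseudoBrody)

/-- **The Green-Griffiths-Lang conjecture for the varieties dominated by varieties with multiple
fibres.** `K'` is the function field of `W`, and `L` the one of `X`; `(a, b)` are the homogeneous
coordinates of the image of the generic point of `W` in `V`, and `x` those of the generic point of
`X`. -/
theorem result {N n r : ℕ} (V : ProdSet ℂ N n) (R : MPoly ℂ N n) (hRh : MHom R)
    (A : Fin n → Finset ℂ) (m : Fin n → ℂ → ℕ) (hV : MultipleFibres V R A m)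
    (hwide : ∀ p, Wide r (A p) (m p))
    {K' L : Type} [Field K'] [Field L] [Algebra ℂ K'] [Algebra ℂ L] [Algebra L K']
    [IsScalarTower ℂ L K'] [FiniteDimensional L K'] (hr : Module.finrank L K' ≤ r)
    (a : Fin (N + 1) → K') (b : Fin n → Fin 2 → K') (hab : V.Mem a b)
    (hR : MvPolynomial.aeval (Sum.elim a fun v => b v.1 v.2) R ≠ 0)
    (halg : Algebra.IsAlgebraic (IntermediateField.adjoin ℂ
      (Set.range fun p => b p 0 / b p 1)) K')
    {M : ℕ} (x : Fin (M + 1) → L) (hx : x ≠ 0) (hgen : coords ℂ x = ⊤) :
    PseudoBrody x ∧ (∀ w : ℕ, Algebra.trdeg ℂ L = w → GeneralType ℂ L w) ∧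
      StronglyGeneral ℂ x :=
  ⟨brody_dm hRh hV hwide hr hab hR halg hx hgen,
    fun _ htr => gt_dm hRh hV hwide hr hab hR halg htr,
    strong_dm hRh hV hwide hr hab hR halg hx hgen⟩

/-- The simplest case of the condition on the multiplicities. -/
theorem wide_example {r : ℕ} {S : Finset ℂ} {m : ℂ → ℕ} (hm : ∀ c ∈ S, r < m c)
    (hsum : 2 * (r : ℝ) < ∑ c ∈ S, (1 - 1 / (m c : ℝ))) : Wide r S m :=
  wide_of hm hsum

end Pool.Agent.Results.MP_8d161d_ag.DominatedMultipleFibres
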