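import Pool.Agent.K4H25.EN.E5

/-!
# Entire curves in product-quotient varieties

Let `C 0, ..., C (n - 1)` be smooth projective curves over the complex numbers,
`V = C 0 × ... × C (n - 1)`, and let `G` be a finite group of automorphisms of `V` which preserves the
factors (it acts on each curve `C i`, not necessarily faithfully). Put `B i = C i / G`. The finite
coverings of products of curves `B 0 × ... × B (n - 1)` which are branched only over fibres of the
projections to the `B i` are exactly these varieties `V / G`. In general they have many singularities,
and the curves `B i` are rational. We give a numerical criterion, on the local monodromy, under which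
the Green-Griffiths-Lang conjecture is true for all projective varieties `X` with a generically finite
dominant rational map `X ⇢ V / G` (for instance, for all varieties birational to `V / G`).

The criterion (`Criterion`). For a point `w` of `C i` over `p ∈ B i` with the ramification index `r`
let `γ w` be the generator of its stabilizer in the group of `C i` over `B i` which rotates the
tangent line by `exp (2 π i / r)`. There are weights `α i > 0` and `δ i p` (which may be negative,
almost all of them zero; they are at most one by the second condition) for the points `p` of the
curves `B i` such that
* the degree of `K + ∑ p, δ i p · p` on `B i` is positive for all `i`;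
* if `(γ (w 0) ^ k 0, ..., γ (w (n - 1)) ^ k (n - 1))` is in `G`, for points `w i` of `C i` over `p i` and
  integers `k i ≥ 1`, then `∑ i, α i * k i * (1 - δ i (p i)) ≥ ∑ i, α i`.
(In terms of an element `g` of order `N` which rotates `C i` at `w i` by `ζ ^ c i`, `c i ≥ 1`, for a
primitive `N`-th root of unity `ζ`, this is `∑ i, α i * r i * (1 - δ i (p i)) * c i ≥ (∑ i, α i) * N`;
this is how the criterion is stated below; for `g = 1` and general points `w j`, `j ≠ i`, it says that
`r (1 - δ i p) ≥ 1`.)

**Theorem.** Under this condition `X` is of general type, and there is a proper closed subset of `X`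
which contains all nonconstant entire curves `ℂ → X`.

Proof. Let `f : ℂ → X` be an entire curve not in the exceptional set, `E` the field of meromorphic
functions on `ℂ`. For a suitable finite Galois extension `N` of `E` with group `Γ` (a ramified covering
of the plane, of infinite type) the map to `V / G` comes from embeddings `ι i` of the function
fields of the curves `C i` in `N`, for the indices `i` in a subset `I` (the other coordinates are
constant), and every `σ ∈ Γ` acts on them as some `g ∈ G`, which is trivial on `C i` for `i ∉ I`.
So there are nonconstant meromorphic maps `κ i : ℂ → B i` for `i ∈ I`. At a place of `N` over a point `z`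
of the plane the inertia group is generated by an element `σ` which acts as a rotation, so the
criterion for `g` says that `∑_{i ∈ I} α i * k i * (1 - δ i (p i)) ≥ ∑_{i ∈ I} α i` where `k i` is
the multiplicity of `κ i` at `z` and `p i` the image of `z`. Let `ω i` be `m`-canonical forms on the
`B i` with poles of order at most `m * δ i p` at the points `p`. By this inequality the products of the
pull-backs `(κ i)^* (ω i)`, each repeated `α i` times (we may assume that the `α i` are integers), are
entire forms `h(z) dz^(m ∑ α i)`. On the other hand the `(κ i)^* (ω i) / dz^m` are bounded by the
`m`-th powers of logarithmic derivatives of functions on `B i`, since `δ i p ≤ 1`. As the degrees of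
the `ω i` are positive, they can be multiplied by all functions of a family without common zeros which
contains nonconstant functions; so the products `h` bound the characteristic functions of the `κ i` by
the lemma on the logarithmic derivative: they are `O(log)`, also after the composition with the
exponential function, a contradiction. So `I` is empty, and `f` is constant. No logarithmic forms (no
irregularity) are needed.
-/

set_option autoImplicit false
set_option linter.overlappingInstances false
set_option maxHeartbeats 4000000
set_option synthInstance.maxHeartbeats 400000

open FF IntermediateField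

namespace Pool.Agent.Results.MP_8d161d_ag.EntireCurvesProductQuotients

open Pool.Agent.W602.GT (GeneralType coords)
open Pool.Agent.W603.LV (canDeg Ge)
open Pool.Agent.W619.PL (LiesOver)
open Pool.Agent.Y221.BD (PseudoBrody)

variable {k : Type} [Field k] {M : Type} [Field M] [Algebra k M] {n : ℕ}

/-- The automorphism `g` fixes the point (the place) `w` of the curve with the function field `C` and
acts on the cotangent line as `θ`: `g t = θ t + (higher order)` for the local parameters `t`. -/
def Rotates (C : IntermediateField k M) (g : M ≃ₐ[k] M) (w : Place k C) (θ : k) : Prop :=
  ∀ t z : C, w.ord t = 1 → g t = z → Ge w 2 (z - algebraMap k C θ * t)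

/-- **The criterion** for the group `G` which acts on the product of the curves with the function
fields `C i`, with the weights `α i` and `δ i p`, `p` a point of the curve `C i / G` (a place of its
function field `C i ⊓ fixedField G`); `canDeg` is the degree of the canonical divisor, and
`LiesOver _ w p r` says that the point `w` lies over `p` with the ramification index `r`. -/
structure Criterion (C : Fin n → IntermediateField k M) (G : Subgroup (M ≃ₐ[k] M))
    (α : Fin n → ℚ) (δ : ∀ i, Place k ↥(C i ⊓ fixedField G) → ℚ) : Prop where
  pos : ∀ i, 0 < α i
  degree : ∀ i, ∃ T : Finset (Place k ↥(C i ⊓ fixedField G)), (∀ p ∉ T, δ i p = 0) ∧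
    0 < (canDeg k ↥(C i ⊓ fixedField G) : ℚ) + ∑ p ∈ T, δ i p
  rotation : ∀ g ∈ G, ∀ ζ : k, IsPrimitiveRoot ζ (orderOf g) →
    ∀ (w : ∀ i, Place k (C i)) (p : ∀ i, Place k ↥(C i ⊓ fixedField G)) (r c : Fin n → ℕ),
      (∀ i, LiesOver (inf_le_left : C i ⊓ fixedField G ≤ C i) (w i) (p i) (r i)) →
      (∀ i, 0 < c i) → (∀ i, Rotates (C i) g (w i) (ζ ^ c i)) →
      (∑ i, α i) * orderOf g ≤ ∑ i, α i * (r i * (1 - δ i (p i)) * c i)

/-- **Entire curves in product-quotient varieties.** `M` is the function field of the product `V` of
the `n` smooth projective curves with the function fields `C i` over the complex numbers, `G` a finite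
group of automorphisms of `V` which preserves the factors, for which the criterion is true, and `X` a
projective variety, with the function field `L` and the generic point `x`, with a generically finite
dominant rational map to `V / G`. Then `X` is of general type, and all nonconstant entire curves in
`X` lie in a proper closed subset. -/
theorem result {M : Type} [Field M] [Algebra ℂ M] {n : ℕ} (hM : Algebra.trdeg ℂ M = n)
    (C : Fin n → IntermediateField ℂ M) [hC : ∀ i, IsFF ℂ (C i)] (hsup : ⨆ i, C i = ⊤)
    (G : Subgroup (M ≃ₐ[ℂ] M)) [Finite G] (hG : ∀ g ∈ G, ∀ i, ∀ z ∈ C i, g z ∈ C i)
    (α : Fin n → ℚ) (δ : ∀ i, Place ℂ ↥(C i ⊓ fixedField G) → ℚ) (h : Criterion C G α δ)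
    {L : Type} [Field L] [Algebra ℂ L] [Algebra (fixedField G) L]
    [IsScalarTower ℂ (fixedField G) L] [FiniteDimensional (fixedField G) L]
    {m : ℕ} {x : Fin (m + 1) → L} (hx : x ≠ 0) (hL : coords ℂ x = ⊤) :
    GeneralType ℂ L n ∧ PseudoBrody x := by
  choose T hT hdeg using h.degree
  exact ⟨Pool.Agent.K4H25.HY.general_of_hage C hM hsup G hG h.pos (h.rotation) T hT hdeg,
    Pool.Agent.K4H25.EN.brody C hsup G hG h.pos (h.rotation) T hT hdeg hx hL⟩

end Pool.Agent.Results.MP_8d161d_ag.EntireCurvesProductQuotients
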