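import Pool.Agent.K4H65.DM.RatMain

/-!
MP_8d161d_ag, Q1: the Green-Griffiths-Lang conjecture for the projective varieties with
generically finite rational multivalued maps to iterated fibrations with multiple fibres over moving
points.

`V` is a closed subset of `P^N × P^1 × ... × P^1` (`n` lines, with the numbers `0, ..., n - 1`). For
every point of `V` outside a given closed subset `R = 0`, and every `p < n`, let `V'` be the fibre of
`V → (P^1)^p` (the coordinates on the lines `0, ..., p - 1`) through this point. It is assumed that
`V'` has multiple fibres with respect to the coordinate on the `p`-th line: the arcs in `V'` which
are not contained in `R = 0` meet the fibres over the points `c` of some finite set `A` with contact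
order `0`, `∞` or at least `m c` (`MultipleOnFibre`), and these multiplicities are large with respect
to `r` (`Wide`): for all `g, j ≥ 1` with `g j ≤ r` the sum of the numbers `1 - 1 / ⌈m c / g⌉`,
`c ∈ A`, is larger than `2 j`. This holds for instance if `m c > r` for all `c ∈ A` and
`∑ (1 - 1 / m c) > 2 r` (`wide_example`). The set `A` and the multiplicities can depend in any way on
`V'` (`IteratedFibres`). For example

* let `F (t 0, t 1)` be any squarefree polynomial of large degree in `t 1`, and `k > r` a prime
  number which is larger than this degree. `V` is a projective model of the function field given by
  the `k`-th roots of `F (t 0, t 1)` and of a polynomial in `t 0` with many simple zeros. It is a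
  surface of general type, a family of curves with varying moduli. The multiple fibres on the curves
  `t 0 = q` lie over the zeros of `F (q, T)`; there are enough of them for all but finitely many `q`
  (the exceptions are contained in `R = 0`).

`X` is a projective variety, with function field `L`. `E 1, ..., E q` are finite extensions of `L` of
degree at most `r`, in a common finite extension `K'` of any degree, and `(a i, b i)` are points of
`V` with coordinates in `E i`, outside `R = 0`: rational multivalued maps from `X` to `V` with at
most `r` values. It is assumed that these multivalued maps together define a generically finite
correspondence from `X` to a product of lines: `K'` is algebraic over the field generated by the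
coordinates on the lines of all these points. For example `X` is dominated with degree at most `r`
by a variety which is generically finite over `V` (`q = 1`, `E 1 = K'`), or `X` is mapped to the
symmetric power `Sym^r (V)` by a generically finite map.

The theorem: the images of all nonconstant entire curves in `X` lie in one proper closed subset
of `X`.

The proof: an entire curve outside a suitable closed subset gives points of `V` over extensions of
degree at most `r` of the field of meromorphic functions, since the primitive elements of the fields
`E i` can be specialized, together with their minimal polynomials. By the theorem on algebroid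
functions with high multiplicities the coordinate on the line `0` is constant; so the points are in
a fibre `V'`, and the coordinate on the line `1` is constant, and so on.
-/

set_option autoImplicit false

open FF IntermediateField

namespace Pool.Agent.Results.MP_8d161d_ag.IteratedFibrations

open Pool.Agent.K4H65.DM
open Pool.Agent.W602.GT (coords)
open Pool.Agent.Y221.BD (PseudoBrody)

/-- **The Green-Griffiths-Lang conjecture for the varieties with multivalued rational maps to
iterated fibrations with multiple fibres.** `L` is the function field of `X`, and `x` are the
homogeneous coordinates of its generic point. -/
theorem result {N n q r : ℕ} (V : ProdSet ℂ N n) (R : MPoly ℂ N n) (hRh : MHom R)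
    (hit : IteratedFibres r V R)
    {K' L : Type} [Field K'] [Field L] [Algebra ℂ K'] [Algebra ℂ L] [Algebra L K']
    [IsScalarTower ℂ L K'] [FiniteDimensional L K'] (E : Fin q → IntermediateField L K')
    (hr : ∀ i, Module.finrank L (E i) ≤ r) (a : ∀ i, Fin (N + 1) → E i)
    (b : ∀ i, Fin n → Fin 2 → E i) (hab : ∀ i, V.Mem (a i) (b i))
    (hR : ∀ i, MvPolynomial.aeval (Sum.elim (a i) fun v => b i v.1 v.2) R ≠ 0)
    (halg : Algebra.IsAlgebraic (IntermediateField.adjoin ℂ
      (Set.range fun j : Fin q × Fin n => ((b j.1 j.2 0 / b j.1 j.2 1 : E j.1) : K'))) K')
    {M : ℕ} (x : Fin (M + 1) → L) (hx : x ≠ 0) (hgen : coords ℂ x = ⊤) :
    PseudoBrody x :=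
  brody_rat hRh hit E hr a b hab hR halg hx hgen

/-- The simplest case of the condition on the multiplicities. -/
theorem wide_example {r : ℕ} {S : Finset ℂ} {m : ℂ → ℕ} (hm : ∀ c ∈ S, r < m c)
    (hsum : 2 * (r : ℝ) < ∑ c ∈ S, (1 - 1 / (m c : ℝ))) : Wide r S m :=
  wide_of hm hsum

end Pool.Agent.Results.MP_8d161d_ag.IteratedFibrations
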