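import Pool.Agent.K4H65.DM.PowOff

/-!
MP_8d161d_ag, Q1: the Green-Griffiths-Lang conjecture for the symmetric powers `Sym^s (V)`, and all
their closed subvarieties, of the projective varieties `V` with multiple fibres over projective
lines.

`V = {Υ = 0}` is a projective variety in `P^l` with morphisms `b 1, ..., b n` to the projective line
(`LineMap`). The arcs in `V` meet the fibre of `b p` over each point `c` of a finite set `A p` with
contact order `0`, `∞` or at least `mu p c` (`LineMap.Multiple`; this holds on smooth `V` if all
components of the fibre have multiplicity at least `mu p c`). The multiplicities are large with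
respect to `s` (`Wide`): for all `g, j ≥ 1` with `g j ≤ s` and all `p` the sum of the numbers
`1 - 1 / ⌈mu p c / g⌉`, `c ∈ A p`, is larger than `2 j`. This holds for instance if `mu p c > s` for
all `c ∈ A p` and `∑ (1 - 1 / mu p c) > 2 s` (`wide_example`).

For example `V` is the product of two curves, or a surface `(C_1 × C_2) / H` isogenous to a product
with `C_1 / H = C_2 / H = P^1` (it has no maps to curves of positive genus, and no irregularity),
or a subvariety or a resolution of a cover of such a variety, of any dimension.

The unordered tuples of `s` points of `V` are the points of a closed subset of the projective space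
of the forms of degree `s` in `l + 1` variables `T 0, ..., T l`: the tuple of the points
`v 1, ..., v s` corresponds to the product of the linear forms `∑ v i a T a`. This is the symmetric
power `Sym^s (V)` (`symEqs` are its equations; the first statement of the theorem). The unordered
tuples which meet a given closed subset `Z = {Θ = 0}` are the points of a closed subset
`Sym^s (V, Z)` (`symMeet`; the second statement).

1. For every nonconstant entire curve in `Sym^s (V)` there are `s` fibres of
   `(b 1, ..., b n) : V → (P^1)^n` such that all points of the curve are unordered tuples of points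
   `v 1, ..., v s` in these fibres.
2. Let `Z` be a closed subset of `V` such that `(b 1, ..., b n)` is quasi-finite outside `Z`. Then
   all nonconstant entire curves in `Sym^s (V)` lie in `Sym^s (V, Z)`, and all closed subvarieties of
   `Sym^s (V)` which are not in `Sym^s (V, Z)` are of general type, for instance `Sym^s (V)` itself if
   `V` is irreducible and `Z ≠ V`. If `(b 1, ..., b n)` is finite, one can take `Z = ∅`: `Sym^s (V)`
   contains no nonconstant entire curves, and all its closed subvarieties are of general type.

An entire curve in `Sym^s (V)` lifts to `V^s` only over a covering of the plane of degree up to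
`s!`. The conditions only contain `s`. For this reason, and since for the pluricanonical forms on
the subvarieties the function fields of all `s` coordinates have to be used together, these results
do not follow from the case of varieties dominated by `V^s` with degree `s!`.

The definitions are in `Pool/Agent/K4H65/DM/PowDefs.lean` (`toForm`, `linForm`, `symEqs`),
`Pool/Agent/K4H65/DM/OffDefs.lean` (`symMeet`, `FiniteOff`), `Pool/Agent/K4H65/DM/FinDefs.lean`
(`LineMap`, `LineMap.At`, `LineMap.Multiple`), `Pool/Agent/K4H65/DM/Defs.lean` (`Wide`),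
`Pool/Agent/Y221/FQ/Defs.lean` (`Entire`) and `Pool/Agent/W602/GT/SpDefs.lean` (`Cone`, `SubVar`,
`GeneralType`).
-/

set_option autoImplicit false

namespace Pool.Agent.Results.MP_8d161d_ag.SymmetricPowers

open Pool.Agent.K4H65.DM Pool.Agent.Y221.FQ
open Pool.Agent.W602.GT (Cone IsForm SubVar GeneralType val)

/-- **The Green-Griffiths-Lang conjecture for the symmetric powers of varieties with multiple
fibres.** -/
theorem result {l n s : ℕ} (hs : 1 ≤ s) {υ ι : Type} {Υ : υ → MvPolynomial (Fin (l + 1)) ℂ}
    {Θ : ι → MvPolynomial (Fin (l + 1)) ℂ} (hΥ : ∀ e, IsForm (Υ e)) (hΘ : ∀ e, IsForm (Θ e))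
    (b : Fin n → LineMap Υ) (A : Fin n → Finset ℂ) (mu : Fin n → ℂ → ℕ)
    (hb : ∀ p, (b p).Multiple (A p) (mu p)) (hwide : ∀ p, Wide s (A p) (mu p)) :
    (∀ z, z ∈ Cone (symEqs Υ s) ↔ ∃ v : Fin s → Fin (l + 1) → ℂ,
      (∀ i, v i ∈ Cone Υ) ∧ toForm z = ∏ i, linForm (v i)) ∧
    (∀ z, z ∈ Cone (symMeet Υ Θ s) ↔ ∃ v : Fin s → Fin (l + 1) → ℂ,
      (∀ i, v i ∈ Cone Υ) ∧ (∃ i, v i ∈ Cone Θ) ∧ toForm z = ∏ i, linForm (v i)) ∧
    (∀ f, Entire (symEqs Υ s) f → ∃ q : Fin s → Fin n → Fin 2 → ℂ, ∀ t,
      ∃ v : Fin s → Fin (l + 1) → ℂ, (∀ i, v i ∈ Cone Υ) ∧ toForm (f t) = ∏ i, linForm (v i) ∧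
        ∀ i p, (b p).At (v i) (q i p)) ∧
    (FiniteOff b Θ →
      (∀ f, Entire (symEqs Υ s) f → Entire (symMeet Υ Θ s) f) ∧
      ∀ (K : Type) [Field K] [Algebra ℂ K] (w : ℕ) (z : Fin (symDim l s + 1) → K),
        SubVar (symEqs Υ s) K w z → ¬ (∀ e, val z (symMeet Υ Θ s e) = 0) →
          GeneralType ℂ K w) :=
  ⟨fun _ => mem_symEqs hs hΥ, fun _ => mem_symMeet hs hΥ hΘ,
    fun _ hf => entire_pow hs hΥ b hb hwide hf,
    fun hfin => ⟨fun _ hf => entire_pow_off hs hΥ b hb hwide hΘ hfin hf,
      fun _ _ _ _ _ hz hzΘ => general_pow_off hs hΥ b hb hwide hΘ hfin hz hzΘ⟩⟩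

/-- The simplest case of the condition on the multiplicities. -/
theorem wide_example {r : ℕ} {S : Finset ℂ} {m : ℂ → ℕ} (hm : ∀ c ∈ S, r < m c)
    (hsum : 2 * (r : ℝ) < ∑ c ∈ S, (1 - 1 / (m c : ℝ))) : Wide r S m :=
  wide_of hm hsum

end Pool.Agent.Results.MP_8d161d_ag.SymmetricPowers
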